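import Pool.Agent.T2H20.FB.Glue

/-!
# Forcibly biconnected graphical partitions are asymptotically negligible

The number of forcibly biconnected graphical partitions of `2n` divided by the number of forcibly
connected ones tends to zero, and so does its quotient by the number of all graphical partitions.
-/

set_option autoImplicit false

namespace Pool.Agent.Results.MP_1c575b_co.ForciblyBiconnected

/-- the multiset of the degrees of the vertices of the graph `G` -/
noncomputable def degrees {m : ℕ} (G : SimpleGraph (Fin m)) : Multiset ℕ :=
  (Finset.univ : Finset (Fin m)).val.map (fun v => (G.neighborSet v).ncard)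

/-- `s` is graphical: the multiset of the degrees of some simple graph, a realization of `s` -/
def Graphical (s : Multiset ℕ) : Prop :=
  ∃ (m : ℕ) (G : SimpleGraph (Fin m)), degrees G = s

/-- `G` is `k`-connected: it has more than `k` vertices, and it remains connected after deleting
any set of fewer than `k` vertices -/
def KConnected (k : ℕ) {m : ℕ} (G : SimpleGraph (Fin m)) : Prop :=
  k < m ∧ ∀ S : Finset (Fin m), S.card < k → (G.induce ((S : Set (Fin m))ᶜ)).Connected

/-- `s` is graphical, and every realization of `s` is `k`-connected -/
def ForciblyKConnected (k : ℕ) (s : Multiset ℕ) : Prop :=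
  Graphical s ∧ ∀ (m : ℕ) (G : SimpleGraph (Fin m)), degrees G = s → KConnected k G

/-- the number `g(2n)` of the graphical partitions of `2n` -/
noncomputable def g (n : ℕ) : ℕ :=
  Nat.card {p : Nat.Partition (2 * n) // Graphical p.parts}

/-- the number of the forcibly `k`-connected graphical partitions of `2n` -/
noncomputable def gf (k n : ℕ) : ℕ :=
  Nat.card {p : Nat.Partition (2 * n) // ForciblyKConnected k p.parts}

/-- **Forcibly biconnected graphical partitions are negligible** among the forcibly connected ones
(of which there is at least one for every `n ≥ 1`), and among all graphical partitions. -/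
theorem result :
    (∀ n : ℕ, 1 ≤ n → 0 < gf 1 n) ∧
    Filter.Tendsto (fun n : ℕ => (gf 2 n : ℝ) / (gf 1 n : ℝ)) Filter.atTop (nhds 0) ∧
    Filter.Tendsto (fun n : ℕ => (gf 2 n : ℝ) / (g n : ℝ)) Filter.atTop (nhds 0) :=
  Pool.Agent.T2H20.FB.main

end Pool.Agent.Results.MP_1c575b_co.ForciblyBiconnected
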